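import Pool.Agent.N71.EX.Stm
import Pool.Agent.N71.BI.Stm

/-!
# Project RP: repulsion.  At most one fundamental discriminant `D` in each interval `[X, X^A]` has a small
`L(1, χ_D) ∏_{p ≤ D} (1 - χ_D(p) / p)` (statements; all elementary, real variable)
-/

set_option autoImplicit false

namespace Pool.Agent.N71.RP

open Finset Filter NumberField Pool.Agent.H38R2.CG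
open Pool.Agent.N71.EX (PE)
open scoped Classical

/-- A real nonprincipal character, with partial sums at most `Q`. -/
structure Chr (f : ℕ → ℝ) (Q : ℝ) : Prop where
  one : f 1 = 1
  mul : ∀ a b : ℕ, a ≠ 0 → b ≠ 0 → f (a * b) = f a * f b
  val : ∀ n : ℕ, f n = 0 ∨ f n = 1 ∨ f n = -1
  sum : ∀ t : ℕ, |∑ n ∈ Finset.Icc 1 t, f n| ≤ Q

/-- Dirichlet convolution. -/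
noncomputable def cv (f h : ℕ → ℝ) (n : ℕ) : ℝ := ∑ m ∈ n.divisors, f m * h (n / m)

/-- `1 * f`. -/
noncomputable def r2 (f : ℕ → ℝ) (n : ℕ) : ℝ := cv f (fun _ => 1) n

/-- `1 * f₁ * f₂ * f₁ f₂`. -/
noncomputable def r4 (f₁ f₂ : ℕ → ℝ) (n : ℕ) : ℝ :=
  cv (cv f₂ (fun n => f₁ n * f₂ n)) (r2 f₁) n

/-- `L(1, f)`, truncated. -/
noncomputable def la (f : ℕ → ℝ) (y : ℕ) : ℝ := ∑ m ∈ Finset.Icc 1 y, f m / m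

/-- `L(σ, f)`, truncated. -/
noncomputable def gy (f : ℕ → ℝ) (y : ℕ) (σ : ℝ) : ℝ := ∑ m ∈ Finset.Icc 1 y, f m * (m : ℝ) ^ (-σ)

/-- The Euler product. -/
noncomputable def PP (f : ℕ → ℝ) (z : ℕ) : ℝ :=
  ∏ p ∈ (Finset.Icc 1 z).filter Nat.Prime, (1 - f p / p)⁻¹

/-- ZET. -/
def E_ZET : Prop := ∀ β : ℝ, 1 / 2 ≤ β → β < 1 → ∃ z : ℝ, z ≤ 0 ∧ ∀ t : ℝ, 1 ≤ t →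
  |∑ k ∈ Finset.Icc 1 ⌊t⌋₊, (k : ℝ) ^ (-β) - t ^ (1 - β) / (1 - β) - z| ≤ 4 * t ^ (-β)

/-- CONV: the hyperbola method. -/
def E_CONV : Prop := ∀ (a f : ℕ → ℝ) (β M z E F x : ℝ) (y : ℕ), 1 ≤ y → (y : ℝ) ≤ x →
  0 < β → β ≤ 1 → (∀ t : ℝ, x / y ≤ t → t ≤ x →
    |∑ k ∈ Finset.Icc 1 ⌊t⌋₊, a k * (k : ℝ) ^ (-β) - M * t ^ (1 - β) - z| ≤ E) →
  (∀ w : ℕ, y ≤ w → |∑ m ∈ Finset.Ioc y w, f m * (m : ℝ) ^ (-β)| ≤ F) →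
  |∑ n ∈ Finset.Icc 1 ⌊x⌋₊, cv f a n * (n : ℝ) ^ (-β) - M * x ^ (1 - β) * la f y -
    z * gy f y β| ≤ E * ∑ m ∈ Finset.Icc 1 y, |f m| * (m : ℝ) ^ (-β) +
      F * ∑ k ∈ Finset.Icc 1 ⌊x / y⌋₊, |a k| * (k : ℝ) ^ (-β)

/-- TWO. -/
def E_TWO : Prop := ∀ a : ℕ, 32 ≤ a → ∃ X₀ : ℕ, 3 ≤ X₀ ∧ ∀ X : ℕ, X₀ ≤ X → ∀ f : ℕ → ℝ,
  Chr f ((X : ℝ) ^ 2) → ∀ β : ℝ, 1 - 1 / Real.log X ≤ β → β < 1 → ∃ z : ℝ, z ≤ 0 ∧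
    ∀ t : ℝ, (X : ℝ) ^ 32 ≤ t → t ≤ (X : ℝ) ^ a →
      |∑ n ∈ Finset.Icc 1 ⌊t⌋₊, r2 f n * (n : ℝ) ^ (-β) -
        la f (X ^ 16) / (1 - β) * t ^ (1 - β) - z * gy f (X ^ 16) β| ≤ 1 / (X : ℝ) ^ 8

/-- PSI. -/
def E_PSI : Prop := ∃ C : ℝ, 0 < C ∧ ∀ X : ℕ, 2 ≤ X → ∀ f h : ℕ → ℝ, Chr f ((X : ℝ) ^ 2) →
  Chr h ((X : ℝ) ^ 2) →
    (∀ β : ℝ, 7 / 8 ≤ β → β ≤ 1 → ∀ w : ℕ, X ^ 16 ≤ w →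
      |∑ m ∈ Finset.Ioc (X ^ 16) w, cv f h m * (m : ℝ) ^ (-β)| ≤ C / (X : ℝ) ^ 4) ∧
    |la (cv f h) (X ^ 16) - la f (X ^ 16) * la h (X ^ 16)| ≤ C / (X : ℝ) ^ 6

/-- FOUR. -/
def E_FOUR : Prop := ∀ a : ℕ, 64 ≤ a → ∃ X₀ : ℕ, 3 ≤ X₀ ∧ ∀ X : ℕ, X₀ ≤ X →
  ∀ f₁ f₂ : ℕ → ℝ, Chr f₁ ((X : ℝ) ^ 2) → Chr f₂ ((X : ℝ) ^ 2) →
    Chr (fun n => f₁ n * f₂ n) ((X : ℝ) ^ 2) → ∀ β : ℝ, 1 - 1 / Real.log X ≤ β → β < 1 →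
    gy f₁ (X ^ 16) β = 0 →
    ∑ n ∈ Finset.Icc 1 (X ^ a), r4 f₁ f₂ n * (n : ℝ) ^ (-β) ≤
      la f₁ (X ^ 16) * la f₂ (X ^ 16) * la (fun n => f₁ n * f₂ n) (X ^ 16) / (1 - β) *
        ((X : ℝ) ^ a) ^ (1 - β) + 1 / 2

/-- POS. -/
def E_POS : Prop := ∀ (f₁ f₂ : ℕ → ℝ) (Q : ℝ), Chr f₁ Q → Chr f₂ Q →
  (∀ n : ℕ, 0 ≤ r2 f₁ n) ∧ (∀ n : ℕ, 0 ≤ r4 f₁ f₂ n) ∧ r2 f₁ 1 = 1 ∧ r4 f₁ f₂ 1 = 1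

/-- SMOG. -/
def E_SMOG : Prop := ∃ a₀ : ℕ, ∀ a : ℕ, a₀ ≤ a → ∀ X : ℕ, 2 ≤ X → ∀ (f₁ f₂ : ℕ → ℝ) (Q : ℝ),
  Chr f₁ Q → Chr f₂ Q →
    1 / 2 * (Real.log X * PP f₁ X) ≤ ∑ n ∈ Finset.Icc 1 (X ^ a), r2 f₁ n / n ∧
    1 / 2 * (Real.log X * PP f₁ X * PP f₂ X * PP (fun n => f₁ n * f₂ n) X) ≤
      ∑ n ∈ Finset.Icc 1 (X ^ a), r4 f₁ f₂ n / n

/-- UPP. -/
def E_UPP : Prop := ∀ a : ℕ, ∃ C : ℝ, 0 < C ∧ ∀ X : ℕ, 2 ≤ X → ∀ (f : ℕ → ℝ) (Q : ℝ),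
  Chr f Q → ∑ n ∈ Finset.Icc 1 (X ^ a), r2 f n / n ≤ C * (Real.log X * PP f X)

/-- CHR. -/
def E_CHR : Prop := ∀ X D₁ D₂ : ℕ, IsFund D₁ → IsFund D₂ → D₁ ≤ X → D₂ ≤ X → D₁ ≠ D₂ →
  Chr (fun n => (chi D₁ n : ℝ)) ((X : ℝ) ^ 2) ∧
  Chr (fun n => (chi D₁ n : ℝ) * (chi D₂ n : ℝ)) ((X : ℝ) ^ 2)

/-- AA. -/
def E_AA : Prop := ∃ (c : ℝ) (X₀ : ℕ), 0 < c ∧ 3 ≤ X₀ ∧ ∀ X : ℕ, X₀ ≤ X → ∀ f : ℕ → ℝ,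
  Chr f ((X : ℝ) ^ 2) → 0 ≤ gy f (X ^ 16) (1 - 1 / Real.log X) → c * PP f X ≤ la f (X ^ 16)

/-- BB. -/
def E_BB : Prop := ∃ (C : ℝ) (X₀ : ℕ), 0 < C ∧ 3 ≤ X₀ ∧ ∀ X : ℕ, X₀ ≤ X → ∀ f : ℕ → ℝ,
  Chr f ((X : ℝ) ^ 2) → ∀ β : ℝ, 1 - 1 / Real.log X ≤ β → β < 1 → gy f (X ^ 16) β = 0 →
    la f (X ^ 16) ≤ C * ((1 - β) * Real.log X * PP f X)

/-- B2. -/
def E_B2 : Prop := ∃ (C : ℝ) (X₀ : ℕ), 0 < C ∧ 3 ≤ X₀ ∧ ∀ X : ℕ, X₀ ≤ X → ∀ f : ℕ → ℝ,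
  Chr f ((X : ℝ) ^ 2) → la f (X ^ 16) ≤ C * PP f X

/-- CC. -/
def E_CC : Prop := ∃ (c : ℝ) (X₀ : ℕ), 0 < c ∧ 3 ≤ X₀ ∧ ∀ X : ℕ, X₀ ≤ X → ∀ f₁ f₂ : ℕ → ℝ,
  Chr f₁ ((X : ℝ) ^ 2) → Chr f₂ ((X : ℝ) ^ 2) → Chr (fun n => f₁ n * f₂ n) ((X : ℝ) ^ 2) →
  ∀ β : ℝ, 1 - 1 / Real.log X ≤ β → β < 1 → gy f₁ (X ^ 16) β = 0 →
    c * ((1 - β) * Real.log X * (PP f₁ X * PP f₂ X * PP (fun n => f₁ n * f₂ n) X)) ≤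
      la f₁ (X ^ 16) * la f₂ (X ^ 16) * la (fun n => f₁ n * f₂ n) (X ^ 16)

/-- COMB. -/
def E_COMB : Prop := ∃ (c : ℝ) (X₀ : ℕ), 0 < c ∧ 3 ≤ X₀ ∧ ∀ X : ℕ, X₀ ≤ X → ∀ f₁ f₂ : ℕ → ℝ,
  Chr f₁ ((X : ℝ) ^ 2) → Chr f₂ ((X : ℝ) ^ 2) → Chr (fun n => f₁ n * f₂ n) ((X : ℝ) ^ 2) →
  0 < la f₁ (X ^ 16) → 0 < la f₂ (X ^ 16) →
    c * PP f₁ X ≤ la f₁ (X ^ 16) ∨ c * PP f₂ X ≤ la f₂ (X ^ 16)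

/-- REP: repulsion. -/
def E_REP : Prop := ∀ A : ℝ, 1 ≤ A → ∃ c : ℝ, 0 < c ∧ ∀ D₁ D₂ : ℕ, IsFund D₁ → IsFund D₂ →
  D₁ < D₂ → (D₂ : ℝ) ≤ (D₁ : ℝ) ^ A → c ≤ Lone D₁ / PE D₁ D₁ ∨ c ≤ Lone D₂ / PE D₂ D₂

end Pool.Agent.N71.RP
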