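import Pool.Agent.N71.EX.All
import Pool.Agent.N71.RP.Stm
import Pool.Agent.N617.BI.SIE
import Pool.Agent.N413.RP.ZET
import Pool.Agent.N97.RP.CONV
import Pool.Agent.N331.RP.PSI
import Pool.Agent.N26.RP.FOUR
import Pool.Agent.N885.RP.Pos
import Pool.Agent.N362.RP.UPP
import Pool.Agent.N736.RP.CHR
import Pool.Agent.N441.RP.AA
import Pool.Agent.N386.RP.BB
import Pool.Agent.N40.RP.COMB
import Pool.Agent.N31.RP.REP
import Pool.Agent.N11.RP.SMOG
import Pool.Agent.N687.RP.TWO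
import Pool.Agent.N456.RP.CC

set_option autoImplicit false

/-!
# Project RP: assembly
-/

namespace Pool.Agent.N71.RP

theorem t_RP : E_REP := by
  have hZET : E_ZET := Pool.Agent.N413.RPZET.t_ZET
  have hCONV : E_CONV := Pool.Agent.N97.RP.t_CONV
  have hPSI : E_PSI := Pool.Agent.N331.RP.t_PSI
  have hPOS : E_POS := Pool.Agent.N885.RP.t_POS
  have hUPP : E_UPP := Pool.Agent.N362.RP.t_UPP hPOS
  have hCHR : E_CHR := Pool.Agent.N736.RP.t_CHR
  have hTWO : E_TWO := Pool.Agent.N687.RP.t_TWO hZET hCONV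
  have hSMOG : E_SMOG := Pool.Agent.N11.RP.SMOG.t_SMOG hPOS
  have hFOUR : E_FOUR := Pool.Agent.N26.RP.t_FOUR hTWO hCONV hPSI
  have hCC : E_CC := Pool.Agent.N456.RP.t_CC hFOUR hSMOG hPOS
  have hAA : E_AA := Pool.Agent.N441.RP.AA.t_AA hTWO hSMOG hPOS
  have hBB : E_BB := Pool.Agent.N386.RP.BB.t_BB hTWO hUPP hPOS
  have hB2 : E_B2 := Pool.Agent.N386.RP.BB.t_B2 hTWO hUPP hPOS
  have hCOMB : E_COMB := Pool.Agent.N40.RP.t_COMB hAA hBB hB2 hCC
  exact Pool.Agent.N31.RP.t_REP hCOMB hCHR Pool.Agent.N617.BI.t_SIE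

end Pool.Agent.N71.RP
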