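import Pool.Agent.N71.RP.Stm
import Pool.Agent.Erdos456.LDich
import Pool.Agent.R345.IXEnd
import Pool.Agent.N415.BI.COL
import Pool.Agent.H38R2.CG.KR

/-!
# Project RP, leaf CHR: the product of the characters of two fundamental discriminants
-/

set_option autoImplicit false

namespace Pool.Agent.N71.RP.CHRx

open Finset Filter NumberField Pool.Agent.H38R2.CG Pool.Agent.N71.RP
open Pool.Agent.Erdos456 (norm_partial_le mul_char_apply)

/-- from a Dirichlet character to `Chr` -/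
theorem chr_of {q : ℕ} (hq : 1 < q) (χ : DirichletCharacter ℂ q) (hχ : χ ≠ 1) (g : ℕ → ℤ)
    (hg : ∀ n : ℕ, 1 ≤ n → χ (n : ZMod q) = (g n : ℂ)) (hv : ∀ n : ℕ, |g n| ≤ 1)
    (Q : ℝ) (hQ : (q : ℝ) ≤ Q) : Chr (fun n => (g n : ℝ)) Q := by
  haveI : NeZero q := ⟨by omega⟩
  haveI : Fact (1 < q) := ⟨hq⟩
  refine ⟨?_, ?_, ?_, ?_⟩
  · have h := hg 1 le_rfl
    rw [Nat.cast_one, map_one] at h
    have h2 : g 1 = 1 := by exact_mod_cast h.symm
    simp [h2]
  · intro a b ha hb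
    have h1 := hg (a * b) (Nat.one_le_iff_ne_zero.2 (mul_ne_zero ha hb))
    rw [Nat.cast_mul, map_mul, hg a (Nat.one_le_iff_ne_zero.2 ha),
      hg b (Nat.one_le_iff_ne_zero.2 hb)] at h1
    have h2 : g (a * b) = g a * g b := by exact_mod_cast h1.symm
    show ((g (a * b) : ℤ) : ℝ) = (g a : ℝ) * (g b : ℝ)
    rw [h2]
    push_cast
    ring
  · intro n
    have h := abs_le.1 (hv n)
    have h3 : g n = 0 ∨ g n = 1 ∨ g n = -1 := by omega
    rcases h3 with h | h | h <;> simp [h]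
  · intro t
    have h := norm_partial_le χ hχ (t + 1)
    have e : ∑ i ∈ Finset.range (t + 1), χ (i : ZMod q) =
        ((∑ n ∈ Finset.Icc 1 t, (g n : ℝ) : ℝ) : ℂ) := by
      rw [Finset.sum_range_eq_add_Ico _ (Nat.succ_pos t)]
      have e2 : Finset.Ico 1 (t + 1) = Finset.Icc 1 t := by
        ext n; simp only [Finset.mem_Ico, Finset.mem_Icc]; omega
      rw [e2, Nat.cast_zero, χ.map_zero, zero_add]
      push_cast
      refine Finset.sum_congr rfl fun n hn => ?_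
      rw [hg n (Finset.mem_Icc.1 hn).1]
    rw [e, Complex.norm_real, Real.norm_eq_abs] at h
    exact h.trans hQ

/-- the squarefree kernel of a fundamental discriminant -/
theorem kernel {D : ℕ} (hD : IsFund D) : ∃ m s : ℕ, Squarefree m ∧ 1 < m ∧ D = s ^ 2 * m ∧
    ((s = 1 ∧ m % 4 = 1) ∨ (s = 2 ∧ m % 4 ≠ 1)) := by
  obtain ⟨h1, ⟨h2, h3⟩ | ⟨m, h2, h3, h4⟩⟩ := hD
  · exact ⟨D, 1, h3, h1, by ring, Or.inl ⟨rfl, h2⟩⟩
  · exact ⟨m, 2, h4, by omega, by rw [h2]; ring, Or.inr ⟨rfl, by omega⟩⟩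

theorem exists_neg {D₁ D₂ : ℕ} (h1 : IsFund D₁) (h2 : IsFund D₂) (hne : D₁ ≠ D₂) :
    ∃ n : ℕ, 1 ≤ n ∧ chi D₁ n * chi D₂ n = -1 := by
  obtain ⟨m₁, s₁, hm1, hm1', e1, c1⟩ := kernel h1
  obtain ⟨m₂, s₂, hm2, hm2', e2, c2⟩ := kernel h2
  have hmne : m₁ ≠ m₂ := by
    rintro rfl
    apply hne
    rcases c1 with ⟨rfl, c1⟩ | ⟨rfl, c1⟩ <;> rcases c2 with ⟨rfl, c2⟩ | ⟨rfl, c2⟩
    · rw [e1, e2]
    · exact absurd c1 c2
    · exact absurd c2 c1
    · rw [e1, e2]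
  set g := Nat.gcd m₁ m₂ with hg
  have hg0 : 0 < g := Nat.gcd_pos_of_pos_left _ (by omega)
  obtain ⟨a, ha⟩ : g ∣ m₁ := Nat.gcd_dvd_left _ _
  obtain ⟨b, hb⟩ : g ∣ m₂ := Nat.gcd_dvd_right _ _
  have hab : Nat.Coprime a b := by
    have h := Nat.coprime_div_gcd_div_gcd hg0
    rw [← hg] at h
    have ha' : m₁ / g = a := by rw [ha]; exact Nat.mul_div_cancel_left _ hg0
    have hb' : m₂ / g = b := by rw [hb]; exact Nat.mul_div_cancel_left _ hg0
    rwa [ha', hb'] at h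
  have hsa : Squarefree a := hm1.squarefree_of_dvd ⟨g, by rw [ha]; ring⟩
  have hsb : Squarefree b := hm2.squarefree_of_dvd ⟨g, by rw [hb]; ring⟩
  have hsm : Squarefree (a * b) := (Nat.squarefree_mul hab).2 ⟨hsa, hsb⟩
  have hm : 1 < a * b := by
    have h0 : a * b ≠ 0 := hsm.ne_zero
    have h1' : a * b ≠ 1 := by
      intro h
      have ha1 : a = 1 := Nat.eq_one_of_mul_eq_one_right h
      have hb1 : b = 1 := Nat.eq_one_of_mul_eq_one_left h
      apply hmne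
      rw [ha, hb, ha1, hb1]
    omega
  set D' := Pool.Agent.R345.IX.Dof (a * b) with hD'
  have hfD' : IsFund D' := Pool.Agent.R345.IX.isFund_Dof hm hsm
  have hD'0 : D' ≠ 0 := by have := hfD'.1; omega
  obtain ⟨s, hs⟩ : ∃ s : ℕ, D' = s ^ 2 * (a * b) ∧ (s = 1 ∨ s = 2) := by
    rw [hD']
    unfold Pool.Agent.R345.IX.Dof
    split_ifs
    · exact ⟨1, by ring, Or.inl rfl⟩
    · exact ⟨2, by ring, Or.inr rfl⟩
  obtain ⟨χ, hχ, hχn⟩ := T_KR D' hfD'
  obtain ⟨u, hu⟩ := MulChar.ne_one_iff.1 hχ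
  have hD10 : D₁ ≠ 0 := by have := h1.1; omega
  have hD20 : D₂ ≠ 0 := by have := h2.1; omega
  set N := 2 * D₁ * D₂ * D' with hN
  have hN0 : N ≠ 0 := by
    rw [hN]
    exact mul_ne_zero (mul_ne_zero (mul_ne_zero two_ne_zero hD10) hD20) hD'0
  haveI : NeZero N := ⟨hN0⟩
  have hdv : D' ∣ N := ⟨2 * D₁ * D₂, by rw [hN]; ring⟩
  obtain ⟨v, hv⟩ := ZMod.unitsMap_surjective hdv u
  set n := (v : ZMod N).val with hn
  have hnc : Nat.Coprime n N := by
    rw [← ZMod.isUnit_iff_coprime, hn, ZMod.natCast_zmod_val]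
    exact v.isUnit
  have hN1 : 1 < N := by
    have : 2 ∣ N := ⟨D₁ * D₂ * D', by rw [hN]; ring⟩
    have := Nat.le_of_dvd (Nat.pos_of_ne_zero hN0) this
    omega
  have hn1 : 1 ≤ n := by
    rcases Nat.eq_zero_or_pos n with h | h
    · rw [h, Nat.coprime_zero_left] at hnc
      omega
    · exact h
  have hodd : Odd n := by
    rw [← Nat.coprime_two_left]
    exact (Nat.Coprime.coprime_dvd_right ⟨D₁ * D₂ * D', by rw [hN]; ring⟩ hnc).symm
  have hun : ((n : ℕ) : ZMod D') = (u : ZMod D') := by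
    have h := congrArg (fun w : (ZMod D')ˣ => (w : ZMod D')) hv
    simp only [ZMod.unitsMap_val] at h
    rw [← h, hn, ZMod.natCast_val]
  have hcop : ∀ k : ℕ, k ∣ N → Int.gcd (k : ℤ) (n : ℤ) = 1 := by
    intro k hk
    rw [Int.gcd_natCast_natCast]
    exact (Nat.Coprime.coprime_dvd_right hk hnc).symm
  have hD'N : D' ∣ N := hdv
  have hval : jacobiSym (D' : ℤ) n = -1 := by
    have h1' := hχn n hn1
    rw [hun] at h1'
    rw [h1'] at hu
    rw [KRh.chi_odd hodd] at hu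
    rcases jacobiSym.eq_one_or_neg_one (hcop D' hD'N) with h | h
    · rw [h] at hu
      simp at hu
    · exact h
  -- multiplicativity
  have hsq : ∀ k : ℕ, k ∣ N → jacobiSym ((k : ℤ) ^ 2) n = 1 := fun k hk =>
    jacobiSym.sq_one' (hcop k hk)
  have hgN : g ∣ N := by
    have h3 : g ∣ D₁ := by
      rw [e1, ha]
      exact ⟨s₁ ^ 2 * a, by ring⟩
    exact h3.trans ⟨2 * D₂ * D', by rw [hN]; ring⟩
  have hs1N : s₁ ∣ N := by
    have h3 : s₁ ∣ D₁ := by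
      rw [e1]
      exact ⟨s₁ * m₁, by ring⟩
    exact h3.trans ⟨2 * D₂ * D', by rw [hN]; ring⟩
  have hs2N : s₂ ∣ N := by
    have h3 : s₂ ∣ D₂ := by
      rw [e2]
      exact ⟨s₂ * m₂, by ring⟩
    exact h3.trans ⟨2 * D₁ * D', by rw [hN]; ring⟩
  have hsN : s ∣ N := by
    have h3 : s ∣ D' := by
      rw [hs.1]
      exact ⟨s * (a * b), by ring⟩
    exact h3.trans hdv
  refine ⟨n, hn1, ?_⟩
  rw [KRh.chi_odd hodd, KRh.chi_odd hodd, ← jacobiSym.mul_left]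
  have e5 : ((D₁ : ℤ) * (D₂ : ℤ)) = ((s₁ : ℤ) ^ 2 * (s₂ : ℤ) ^ 2 * (g : ℤ) ^ 2) * ((a * b : ℕ) : ℤ) := by
    rw [e1, e2, ha, hb]
    push_cast
    ring
  have e6 : (D' : ℤ) = (s : ℤ) ^ 2 * ((a * b : ℕ) : ℤ) := by
    rw [hs.1]
    push_cast
    ring
  rw [e6, jacobiSym.mul_left, hsq s hsN, one_mul] at hval
  rw [e5, jacobiSym.mul_left, jacobiSym.mul_left, jacobiSym.mul_left, hsq s₁ hs1N, hsq s₂ hs2N,
    hsq g hgN, hval]
  norm_num

theorem t_CHRx : E_CHR := by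
  intro X D₁ D₂ h1 h2 hX1 hX2 hne
  have hX : (1 : ℝ) ≤ X := by
    have : 1 ≤ X := by have := h1.1; omega
    exact_mod_cast this
  have hX1' : (D₁ : ℝ) ≤ X := by exact_mod_cast hX1
  have hX2' : (D₂ : ℝ) ≤ X := by exact_mod_cast hX2
  obtain ⟨χ₁, hχ₁, hg1⟩ := T_KR D₁ h1
  obtain ⟨χ₂, hχ₂, hg2⟩ := T_KR D₂ h2
  haveI : NeZero D₁ := ⟨by have := h1.1; omega⟩
  haveI : NeZero D₂ := ⟨by have := h2.1; omega⟩
  have ha : ∀ (D : ℕ) (n : ℕ), |chi D n| ≤ 1 := fun D n => Pool.Agent.N415.BI.chi_abs_le D n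
  constructor
  · refine chr_of h1.1 χ₁ hχ₁ (fun n => chi D₁ n) hg1 (ha D₁) _ ?_
    nlinarith
  · have hq : 1 < D₁ * D₂ := by
      have a1 := h1.1
      have a2 := h2.1
      nlinarith
    have hval : ∀ n : ℕ, 1 ≤ n →
        (DirichletCharacter.changeLevel (D₁.dvd_mul_right D₂) χ₁ *
          DirichletCharacter.changeLevel (D₂.dvd_mul_left D₁) χ₂) (n : ZMod (D₁ * D₂)) =
          ((chi D₁ n * chi D₂ n : ℤ) : ℂ) := by
      intro n hn
      rw [mul_char_apply, hg1 n hn, hg2 n hn]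
      push_cast
      ring
    have hne1 : DirichletCharacter.changeLevel (D₁.dvd_mul_right D₂) χ₁ *
          DirichletCharacter.changeLevel (D₂.dvd_mul_left D₁) χ₂ ≠ 1 := by
      intro hcon
      obtain ⟨n, hn1, hn⟩ := exists_neg h1 h2 hne
      have h3 := hval n hn1
      rw [hcon, hn] at h3
      by_cases hu : IsUnit (n : ZMod (D₁ * D₂))
      · rw [MulChar.one_apply hu] at h3
        norm_num at h3
      · rw [MulChar.map_nonunit _ hu] at h3
        norm_num at h3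
    have h := chr_of hq _ hne1 (fun n => chi D₁ n * chi D₂ n) hval
      (fun n => by
        rw [abs_mul]
        exact mul_le_one₀ (ha D₁ n) (abs_nonneg _) (ha D₂ n)) ((X : ℝ) ^ 2) (by
          push_cast
          have h0 : (0 : ℝ) ≤ (D₁ : ℝ) := Nat.cast_nonneg _
          have h0' : (0 : ℝ) ≤ (D₂ : ℝ) := Nat.cast_nonneg _
          nlinarith)
    have e : (fun n => (chi D₁ n : ℝ) * (chi D₂ n : ℝ)) =
        fun n => (((fun n => chi D₁ n * chi D₂ n) n : ℤ) : ℝ) := by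
      funext n
      push_cast
      rfl
    rw [e]
    exact h

end Pool.Agent.N71.RP.CHRx
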